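import Pool.Agent.L0h99.MN.Stm

/-!
# Board MN, module LF
-/

set_option autoImplicit false

namespace Pool.Agent.L0h89.MN

open Finset Pool.Agent.L0h99.MN

theorem t_LF : St_LF := by
  intro V _ _ G W H _hI _hA hB v hv hT
  obtain ⟨a, b, w, hab, haw, hbw, hN, ha, hb, hw⟩ := hT
  have hva : G.Adj v a := by
    rw [← mem_N, hN]; simp
  have hvb : G.Adj v b := by
    rw [← mem_N, hN]; simp
  have hvw : G.Adj v w := by
    rw [← mem_N, hN]; simp
  have good : ∀ u, G.Adj v u → ∀ y ∈ W, G.Adj u y → y ≠ v → Good G W H v u y := by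
    intro u hu y hy huy hyv
    refine ⟨hy, huy, hyv, Or.inr fun h hh hhy => ?_⟩
    exact hB v hv h hh u y hu huy hhy.symm
  refine ⟨a, b, w, hab, haw, hbw, hN, ?_, ?_, ?_⟩
  · intro y hy hay
    by_contra hne
    exact ha y (good a hva y hy hay hne)
  · intro y hy hby
    by_contra hne
    exact hb y (good b hvb y hy hby hne)
  · intro y hy y' hy' h1 h2 h3 h4
    exact hw y y' (good w hvw y hy h1 h3) (good w hvw y' hy' h2 h4)

end Pool.Agent.L0h89.MN
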